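import Pool.Agent.Helper9.RC2.Goals
import Pool.Agent.Helper32.RC.CutDown

/-!
# MP_b55b7c_an: the cut-down step with a matrix over the fixed point algebra (packet RC2-CDG)
-/

open scoped ENNReal NNReal InnerProductSpace ComplexOrder
open Filter Topology

attribute [-instance] CStarMatrix.instAlgebra CStarMatrix.instModule CStarMatrix.instSMul
  CStarMatrix.instMulAction CStarMatrix.instDistribMulAction

noncomputable section
namespace Pool.Agent.Helper34.RC2.CDG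
open RC RC.CutDown
universe u

/-- Packet CDG. -/
theorem t (hMp : MpP.{u}) (hPull : QPullP.{u}) (hLe : CuLeAddP.{u}) (hSwap : CuSwapP.{u})
    (hAdd : CuAddP.{u}) (hDs : CuDsumP.{u}) (hT : CuTransP.{u}) (hMono : QMonoP.{u})
    (hQD : QDsumP.{u}) : CutDownGP.{u} := by
  intro A _ _ _ B _ _ _ G _ _ α j hα hj ι κ μ _ _ _ _ _ _ a b z y c δ s ha hb hf hc hδ hin hdim
  classical
  set αh : G → (A →⋆ₐ[ℂ] A) := fun g => ((α g : A ≃⋆ₐ[ℂ] A) : A →⋆ₐ[ℂ] A) with hαh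
  have hαa : ∀ g x, αh g x = α g x := fun g x => rfl
  have hinj : ∀ g, Function.Injective (αh g) := fun g => (α g).injective
  set T : G → CStarMatrix (ι ⊕ μ) (ι ⊕ μ) A := fun g => mp (αh g) c with hTd
  have hT0 : ∀ g, 0 ≤ T g := fun g =>
    (hMp A A (αh g) (hinj g) (ι ⊕ μ) (ι ⊕ μ) c c).1.1 hc
  set ct : CStarMatrix (ι ⊕ μ) (ι ⊕ μ) A := ∑ g, T g with hct
  have hct0 : 0 ≤ ct := Finset.sum_nonneg fun g _ => hT0 g
  have hα1 : ∀ x, α 1 x = x := by
    intro x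
    have h := hα 1 1 x
    rw [mul_one] at h
    exact ((α 1).injective h).symm
  have hT1 : T 1 = c := by
    ext i k
    exact hα1 (c i k)
  have hcle : c ≤ ct := by
    conv_lhs => rw [← hT1]
    exact Finset.single_le_sum (fun g _ => hT0 g) (Finset.mem_univ 1)
  have hentry : ∀ i k, ct i k = ∑ g, α g (c i k) := by
    intro i k
    exact Matrix.sum_apply _ _ _ _
  have hinv : ∀ h i k, α h (ct i k) = ct i k := by
    intro h i k
    rw [hentry, map_sum]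
    have h2 : ∀ g, α h (α g (c i k)) = α (h * g) (c i k) := fun g => (hα h g _).symm
    simp_rw [h2]
    exact Fintype.sum_equiv (Equiv.mulLeft h) _ _ fun g => rfl
  have hex : ∀ i k, ∃ x, j x = ct i k := fun i k => (hj.2 _).1 fun g => hinv g i k
  choose C hC using hex
  set CC : CStarMatrix (ι ⊕ μ) (ι ⊕ μ) B := CStarMatrix.ofMatrix C with hCC
  have hmp : mp j CC = ct := by
    ext i k
    exact hC i k
  have hCC0 : 0 ≤ CC := by
    refine (hMp A B j hj.1 (ι ⊕ μ) (ι ⊕ μ) CC CC).1.2 ?_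
    rw [hmp]
    exact hct0
  have hdimct : ∀ σ : QTrace A, σ.dim ct ≤ Fintype.card G * s := by
    intro σ
    have h := dim_sum_le hAdd hMono hQD σ T hT0 s (fun g => by
      obtain ⟨σg, h⟩ := hPull A A (αh g) (hinj g) σ
      have h2 := h (ι ⊕ μ) c hc
      show σ.dim (mp (αh g) c) ≤ s
      rw [← h2]
      exact hdim σg) Finset.univ
    rwa [Finset.card_univ] at h
  have hc0 : 0 ≤ blk0 ct := blk0_nonneg hct0
  have hc1 : 0 ≤ blk1 ct := blk1_nonneg hct0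
  have hC0 : 0 ≤ blk0 CC := blk0_nonneg hCC0
  have hC1 : 0 ≤ blk1 CC := blk1_nonneg hCC0
  have hm0 : mp j (blk0 CC) = blk0 ct := by rw [← hmp]; rfl
  have hm1 : mp j (blk1 CC) = blk1 ct := by rw [← hmp]; rfl
  have he0 : mp j (cfc (phi δ) (blk0 CC)) = cfc (phi δ) (blk0 ct) := by
    rw [← hm0]
    exact (hMp A B j hj.1 ι ι (blk0 CC) (blk0 CC)).2.2.2 (phi δ) (phi_cont δ) hC0.isSelfAdjoint
  have he1 : mp j (cfc (phi δ) (blk1 CC)) = cfc (phi δ) (blk1 ct) := by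
    rw [← hm1]
    exact (hMp A B j hj.1 μ μ (blk1 CC) (blk1 CC)).2.2.2 (phi δ) (phi_cont δ)
      hC1.isSelfAdjoint
  have hr1 : mp j (cfc (psi δ) (blk1 CC)) = cfc (psi δ) (blk1 ct) := by
    rw [← hm1]
    exact (hMp A B j hj.1 μ μ (blk1 CC) (blk1 CC)).2.2.2 (psi δ) (psi_cont δ)
      hC1.isSelfAdjoint
  have hF1 : 0 ≤ mp j z := (hMp A B j hj.1 μ μ z z).1.1 hf
  set r0 : CStarMatrix ι ι A := cfc (psi δ) (blk0 ct) with hr0d
  set r1 : CStarMatrix μ μ A := cfc (psi δ) (blk1 ct) with hr1d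
  have hr0s : r0.conjTranspose = r0 := (psi_sa δ (blk0 ct)).star_eq
  have hr1s : r1.conjTranspose = r1 := (psi_sa δ (blk1 ct)).star_eq
  have hX0 : 0 ≤ r0 * a * r0 := by
    have h := cm_conj_nonneg r0 ha
    rwa [hr0s] at h
  have hY0 : 0 ≤ r1 * mp j z * r1 := by
    have h := cm_conj_nonneg r1 hF1
    rwa [hr1s] at h
  have hR1s : (cfc (psi δ) (blk1 CC)).conjTranspose = cfc (psi δ) (blk1 CC) :=
    (psi_sa δ (blk1 CC)).star_eq
  have hYB0 : 0 ≤ cfc (psi δ) (blk1 CC) * z * cfc (psi δ) (blk1 CC) := by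
    have h := cm_conj_nonneg (cfc (psi δ) (blk1 CC)) hf
    rwa [hR1s] at h
  have hmd : mp j (cut (cfc (psi δ) (blk1 CC) * z * cfc (psi δ) (blk1 CC)) (2 * δ)) =
      cut (r1 * mp j z * r1) (2 * δ) := by
    have h1 := (hMp A B j hj.1 μ μ
      (cfc (psi δ) (blk1 CC) * z * cfc (psi δ) (blk1 CC)) (blk1 CC)).2.2.2
      (fun t : ℝ => max (t - 2 * δ) 0) (by fun_prop) hYB0.isSelfAdjoint
    unfold cut
    rw [h1, mp_mul, mp_mul, hr1]
  -- the main inequality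
  set K : CStarMatrix (ι ⊕ μ) (ι ⊕ μ) A := dsum r0 r1 with hK
  have hKs : K.conjTranspose = K := by rw [hK, dsum_conj, hr0s, hr1s]
  have hKK : K * K ≤ 1 := by
    rw [hK, dsum_mul, ← dsum_one]
    exact dsum_mono (psi_psi_le hδ hc0) (psi_psi_le hδ hc1)
  have hKcK : K * dsum (blk0 ct) (blk1 ct) * K ≤ (δ / 4) • (1 : CStarMatrix _ _ A) := by
    rw [hK, dsum_mul, dsum_mul, ← dsum_one, ← dsum_rsmul]
    exact dsum_mono (psi_c_psi_le hδ hc0) (psi_c_psi_le hδ hc1)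
  have hKD : K * dsum a (mp j z) * K =
      dsum (r0 * a * r0) (r1 * mp j z * r1) := by
    rw [hK, dsum_mul, dsum_mul]
  have hin2 : dsum a (mp j z) ≤ y.conjTranspose * b * y +
      (2 : ℝ) • dsum (blk0 ct) (blk1 ct) + δ • (1 : CStarMatrix (ι ⊕ μ) (ι ⊕ μ) A) := by
    refine hin.trans ?_
    gcongr
    exact hcle.trans (le_two_blocks hct0)
  have hZ : K * (y.conjTranspose * b * y) * K = (y * K).conjTranspose * b * (y * K) := by
    rw [cm_conj_mul, hKs]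
    simp only [cm_assoc]
  have hmain : dsum (r0 * a * r0) (r1 * mp j z * r1) ≤
      (y * K).conjTranspose * b * (y * K) +
        (2 * δ) • (1 : CStarMatrix (ι ⊕ μ) (ι ⊕ μ) A) := by
    have h := cm_conj_le K hin2
    rw [hKs, hKD] at h
    refine h.trans ?_
    have h2 : K * (y.conjTranspose * b * y + (2 : ℝ) • dsum (blk0 ct) (blk1 ct) +
        δ • (1 : CStarMatrix (ι ⊕ μ) (ι ⊕ μ) A)) * K =
        (y * K).conjTranspose * b * (y * K) + (2 : ℝ) • (K * dsum (blk0 ct) (blk1 ct) * K) +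
          δ • (K * K) := by
      rw [← hZ, mul_add, mul_add, add_mul, add_mul, cm_mul_rsmul, cm_mul_rsmul, cm_rsmul_mul,
        cm_rsmul_mul, mul_one]
    rw [h2]
    have h3 : (2 : ℝ) • (K * dsum (blk0 ct) (blk1 ct) * K) ≤
        (2 : ℝ) • ((δ / 4) • (1 : CStarMatrix (ι ⊕ μ) (ι ⊕ μ) A)) :=
      smul_le_smul_of_nonneg_left hKcK (by norm_num)
    have h4 : δ • (K * K) ≤ δ • (1 : CStarMatrix (ι ⊕ μ) (ι ⊕ μ) A) :=
      smul_le_smul_of_nonneg_left hKK hδ.le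
    have h5 : (2 : ℝ) • ((δ / 4) • (1 : CStarMatrix (ι ⊕ μ) (ι ⊕ μ) A)) +
        δ • (1 : CStarMatrix (ι ⊕ μ) (ι ⊕ μ) A) ≤
        (2 * δ) • (1 : CStarMatrix (ι ⊕ μ) (ι ⊕ μ) A) := by
      rw [smul_smul, ← add_smul]
      exact smul_le_smul_of_nonneg_right (by linarith) zero_le_one
    rw [add_assoc]
    refine add_le_add le_rfl ?_
    exact (add_le_add h3 h4).trans h5
  refine ⟨cut (r0 * a * r0) (2 * δ), cfc (phi δ) (blk0 CC), cfc (phi δ) (blk1 CC),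
    cut (cfc (psi δ) (blk1 CC) * z * cfc (psi δ) (blk1 CC)) (2 * δ),
    cut_nonneg _ _, cfc_nonneg fun t _ => phi_nonneg hδ t, cfc_nonneg fun t _ => phi_nonneg hδ t,
    cut_nonneg _ _, ?_, ?_, ?_, ?_, ?_⟩
  · rw [he0]
    exact split hSwap hAdd hLe hDs hT ha hc0 hδ
  · rw [hmd, ← cut_dsum _ _ hX0.isSelfAdjoint hY0.isSelfAdjoint]
    have h1 := hLe A (ι ⊕ μ) (dsum (r0 * a * r0) (r1 * mp j z * r1))
      ((y * K).conjTranspose * b * (y * K)) (2 * δ) (by positivity) (dsum_nonneg hX0 hY0)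
      (cm_conj_nonneg' _ hb) hmain
    exact hT A (ι ⊕ μ) (ι ⊕ μ) κ _ _ _ h1 (cu_conj' _ _)
  · exact split hSwap hAdd hLe hDs hT hf hC1 hδ
  · intro σ
    rw [he0]
    refine le_trans (hMono A σ ι (ι ⊕ μ) _ _ (cfc_nonneg fun t _ => phi_nonneg hδ t) hct0 ?_)
      (hdimct σ)
    exact hT A ι ι (ι ⊕ μ) _ _ _ (cu_phi hLe hT hδ hc0) (blk0_cu ct)
  · intro σ
    rw [he1]
    refine le_trans (hMono A σ μ (ι ⊕ μ) _ _ (cfc_nonneg fun t _ => phi_nonneg hδ t)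
      hct0 ?_) (hdimct σ)
    exact hT A μ μ (ι ⊕ μ) _ _ _ (cu_phi hLe hT hδ hc1) (blk1_cu ct)

end Pool.Agent.Helper34.RC2.CDG
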